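import Mathlib
import Pool.Agent.K3h2.BL.Asym
import Pool.Agent.TH900.XM.Meas

/-!
# The digits of `ζ(11), …, ζ(27)` cannot be cut into few blocks of small linear complexity

The linear complexity of a block of digits is the least order of a linear recurrence over `ℚ` which
it satisfies. Blocks of small complexity are for instance the words `u v^w`, the stretches on which
a finite automaton or a linear predictor makes no error, and the coefficients of rational functions
of small degree. A rational number is one whose digits are, at all scales, a single block of bounded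
complexity. `Cut b x s k L`: the first `L` digits of `x` in base `b` are covered by `s` consecutive
blocks of linear complexity at most `k` each; the blocks may satisfy completely different
recurrences, and a digit may be omitted between any two blocks.

Let the first `L_j` digits of `ζ(j)` in base `b_j` be cut into `s_j` blocks of complexity at most
`k_j`, for `j = 11, 13, …, 27`. We show that the smallest one of the numbers `L_j log b_j` is at most
`(1 + 14652 + ⋯ + 14652^E) ((1628 + η) ∑ k_j log b_j + C ∑ log b_j)`, where `E = ∑ (s_j - 1)` is the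
number of the cuts, `14652 = 9 · 1628`, and `C` depends on `η` only. Therefore, for every `θ < 1`, all
large `N` and all bases, one of the nine numbers has the property that its first `N` digits are not
cut into fewer than `((1 - θ) / 87) log N` blocks of complexity at most `N^θ`; and one and the same
number has this property in all bases, for infinitely many `N`.

The starting result `DigitComplexity` is on one recurrence for all digits (with some changed digits);
here the recurrences change from block to block.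

The proof: between two scales `t` and `14652 t + A` without cuts (on the common scale `L log b`) every
one of the nine numbers has one block, which gives a rational approximation of denominator at most
`exp (t + …)` with an error at most `exp (t - 14652 t - A + …)`; the nine approximations together
contradict the simultaneous measure of the starting result `MeasureZeta11To27`.
-/

set_option autoImplicit false

namespace Pool.Agent.Results.MP_4f096c_nt.BlocksOfSmallComplexity

open Finset
open Pool.Agent.K3h2.BL (Cut)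

/-- the nine numbers `ζ(11), ζ(13), …, ζ(27)`, `ζ(i) = ∑ 1/(n+1)^i` -/
noncomputable def z (j : Fin 9) : ℝ := ∑' n : ℕ, 1 / ((n : ℝ) + 1) ^ (11 + 2 * (j : ℕ))

theorem meas : ∃ c : ℝ, 0 < c ∧ Pool.Agent.W47.JL.Meas 9 z 1628 c 0 := by
  obtain ⟨c, hc, hmeas⟩ := Pool.Agent.TH900.XM.measure
  refine ⟨c, hc, fun q hq p => ?_⟩
  obtain ⟨a, ha⟩ : ∃ a : ℕ → ℤ, ∀ j : Fin 9, a (11 + 2 * (j : ℕ)) = p j :=
    ⟨fun i => if h : (i - 11) / 2 < 9 then p ⟨(i - 11) / 2, h⟩ else 0, fun j => by
      have h1 : (11 + 2 * (j : ℕ) - 11) / 2 = j := by omega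
      have h2 : (11 + 2 * (j : ℕ) - 11) / 2 < 9 := by omega
      simp only [dif_pos h2]
      congr 1
      exact Fin.ext h1⟩
  obtain ⟨i, hi, h1⟩ := hmeas a q hq
  obtain ⟨j, hj⟩ : ∃ j : Fin 9, i = 11 + 2 * (j : ℕ) := by
    simp only [Finset.mem_insert, Finset.mem_singleton] at hi
    refine ⟨⟨(i - 11) / 2, by omega⟩, ?_⟩
    simp only
    omega
  subst hj
  refine ⟨j, ?_⟩
  have hq0 : (0 : ℝ) < q := by exact_mod_cast hq
  rw [ha] at h1
  have h2 : c / (q : ℝ) ^ 1628 ≤ |z j - (p j : ℝ) / q| := h1
  have e1 : (q : ℝ) ^ ((1628 : ℝ) - 1) = (q : ℝ) ^ 1627 := by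
    rw [← Real.rpow_natCast]
    norm_num
  have e2 : |(q : ℝ) * z j - p j| = q * |z j - (p j : ℝ) / q| := by
    rw [← abs_of_pos hq0, ← abs_mul, abs_of_pos hq0]
    congr 1
    field_simp
  rw [div_le_iff₀ (by positivity)] at h2
  rw [e1, e2, Real.rpow_zero, mul_one]
  calc c ≤ |z j - (p j : ℝ) / q| * (q : ℝ) ^ 1628 := h2
    _ = (q : ℝ) ^ 1627 * (q * |z j - (p j : ℝ) / q|) := by ring

theorem log_num : (9 : ℕ) * Real.log ((9 : ℕ) * 1628) < 87 := by
  have h1 := Real.exp_one_gt_d9
  have h2 : ((9 : ℝ) * 1628) ^ 5 < Real.exp 1 ^ 48 := by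
    calc ((9 : ℝ) * 1628) ^ 5 < 2.7182818283 ^ 48 := by norm_num
      _ ≤ _ := pow_le_pow_left₀ (by norm_num) h1.le _
  have h3 := Real.log_lt_log (by positivity) h2
  rw [Real.log_pow, Real.log_pow, Real.log_exp] at h3
  push_cast at h3 ⊢
  linarith

/-- **Main theorem.** `Cut b x s k L`: the first `L` digits of `x` in base `b` are covered by `s` blocks
of linear complexity at most `k`; one digit may be omitted between two blocks.

(1) For every `η > 0` there is `C` such that for all bases `b_j ≥ 2` and all `s_j`, `k_j`, `L_j` with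
`Cut b_j ζ(11 + 2 j) s_j k_j L_j`, `j = 0, …, 8`, the smallest one of the numbers `L_j log b_j` is at most
`(1 + 14652 + ⋯ + 14652^E) ((1628 + η) ∑ k_j log b_j + C ∑ log b_j)`, `E = ∑ (s_j - 1)`.

(2) Let `0 ≤ θ < 1`. For all large `N` and all bases one of the nine numbers is such that its first
`N` digits are not cut into fewer than `((1 - θ) / 87) log N` blocks of complexity at most `N^θ`.

(3) Let `0 ≤ θ < 1`. One of the nine numbers has this property in every base for infinitely many
`N`. -/
theorem result :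
    (∀ η : ℝ, 0 < η → ∃ C : ℝ, 0 < C ∧ ∀ b s k L : Fin 9 → ℕ, (∀ j, 2 ≤ b j) →
      (∀ j, Cut (b j) (z j) (s j) (k j) (L j)) →
      ∃ j, (L j : ℝ) * Real.log (b j) ≤ (∑ i ∈ range (∑ j, (s j - 1) + 1), (14652 : ℝ) ^ i) *
        ((1628 + η) * (∑ j, k j * Real.log (b j)) + C * ∑ j, Real.log (b j))) ∧
    (∀ θ : ℝ, 0 ≤ θ → θ < 1 → ∃ N₀ : ℕ, ∀ b : ℕ, 2 ≤ b → ∀ N : ℕ, N₀ ≤ N →
      ∃ j : Fin 9, ∀ s k : ℕ, (k : ℝ) ≤ (N : ℝ) ^ θ → Cut b (z j) s k N →
        (1 - θ) * Real.log N / 87 ≤ s) ∧
    (∀ θ : ℝ, 0 ≤ θ → θ < 1 → ∃ j : Fin 9, ∀ b : ℕ, 2 ≤ b → ∀ N₀ : ℕ, ∃ N : ℕ, N₀ ≤ N ∧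
      ∀ s k : ℕ, (k : ℝ) ≤ (N : ℝ) ^ θ → Cut b (z j) s k N → (1 - θ) * Real.log N / 87 ≤ s) := by
  obtain ⟨c, hc, hM⟩ := meas
  have e : ((9 : ℕ) : ℝ) * 1628 = 14652 := by norm_num
  have h2 : (2 : ℝ) ≤ ((9 : ℕ) : ℝ) * 1628 := by norm_num
  refine ⟨fun η hη => ?_, fun θ h0 h1 => ?_, fun θ h0 h1 => ?_⟩
  · obtain ⟨C, hC, hmain⟩ := Pool.Agent.K3h2.BL.main 1628 c η (by norm_num) hc hη
    refine ⟨C, hC, fun b s k L hb hcut => ?_⟩
    obtain ⟨j, hj⟩ := hmain 9 z hM b s k L hb hcut
    rw [e] at hj
    exact ⟨j, hj⟩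
  · obtain ⟨N0, h⟩ := Pool.Agent.K3h2.BL.allScales 9 (by norm_num) 1628 c (by norm_num) hc h2 87
      log_num θ h0 h1
    exact ⟨N0, fun b hb N hN => h z hM b hb N hN⟩
  · exact Pool.Agent.K3h2.BL.oneNumber 9 (by norm_num) 1628 c (by norm_num) hc h2 87
      log_num θ h0 h1 z hM

end Pool.Agent.Results.MP_4f096c_nt.BlocksOfSmallComplexity
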