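import Mathlib
import Pool.Agent.R473.FV.Fam
import Pool.Agent.TH900.XM.Meas

/-!
# Finite-state predictors for the digits of `ζ(11), …, ζ(27)`

By the starting files one of the nine numbers `ζ(11), ζ(13), …, ζ(27)` is irrational.  Here it is
proved that one of the nine numbers has digits which, in every base, no finite automaton predicts
with few errors.

A predictor with `Q` states reads the digits of a number one after the other and predicts each next
digit from its state.  If the digits of `x` in base `b` are eventually periodic, that is if `x` is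
rational, then some predictor makes only finitely many errors.  We prove:

(1) for nine predictors, one for each of the numbers, which work on the digits of `ζ(j)` in a base
`b_j` of its own, an inequality between the lengths, the numbers of states and the total number of
errors;

(2) in one base: if the nine predictors have at most `Q` states each and make altogether `E` errors
on the first `N` digits then `N ≤ (1 + 14652 + ⋯ + 14652^E) (14652 (Q + 1) + C)`, with one constant
`C` for all bases;

(3) for every `θ < 1` one of the nine numbers is such that in every base, for infinitely many `N`,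
every predictor with at most `N^θ` states makes more than `((1 - θ)/87) log N` errors on the first
`N` digits.

Proof: the simultaneous measure of the starting result `MeasureZeta11To27`.  Without errors an
automaton is autonomous and its state runs into a cycle, which gives a rational approximation of
the corresponding number; the approximations are combined, on the common time scale `n log b`.
The tools for predictors are those of `Pool/Agent/Results/MP_e47f08_nt/FiniteStatePredictors.lean`.
-/

set_option autoImplicit false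

open Finset

namespace Pool.Agent.Results.MP_4f096c_nt.FiniteStatePredictors

/-- the odd numbers from `11` to `27` -/
def T : Finset ℕ := {11, 13, 15, 17, 19, 21, 23, 25, 27}

/-- `ζ(i) = ∑ 1/(n+1)^i` -/
noncomputable def zeta (i : ℕ) : ℝ := ∑' n : ℕ, 1 / ((n : ℝ) + 1) ^ i

/-- the `i`-th digit of `x` after the point in base `b` -/
noncomputable def digit (b : ℕ) (x : ℝ) (i : ℕ) : ℤ := ⌊x * (b : ℝ) ^ i⌋ % (b : ℤ)

/-- A predictor: a finite automaton with `Q` states, transitions `δ`, initial state `q₀` and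
predictions `out`. -/
structure Predictor where
  /-- the number of states -/
  Q : ℕ
  /-- the next state -/
  δ : Fin Q → ℤ → Fin Q
  /-- the initial state -/
  q₀ : Fin Q
  /-- the prediction -/
  out : Fin Q → ℤ

/-- the state of the predictor after it has read `d 1, …, d n` -/
def Predictor.state (M : Predictor) (d : ℕ → ℤ) (n : ℕ) : Fin M.Q :=
  Pool.Agent.R473.FP.run M.δ M.q₀ d n

/-- the number of errors on the first `N` terms of `d`: the number of `n < N` such that the
prediction made after reading `d 1, …, d n` is not `d (n + 1)` -/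
def Predictor.errors (M : Predictor) (d : ℕ → ℤ) (N : ℕ) : ℕ :=
  ((range N).filter fun n => M.out (M.state d n) ≠ d (n + 1)).card

/-- in every base `b ≥ 2`, for infinitely many `N`, all predictors with at most `N ^ θ` states make more
than `c log N` errors on the first `N` digits of `x` -/
def Hard (θ c x : ℝ) : Prop :=
  ∀ b : ℕ, 2 ≤ b → ∀ N₀ : ℕ, ∃ N : ℕ, N₀ ≤ N ∧ ∀ M : Predictor, (M.Q : ℝ) ≤ (N : ℝ) ^ θ →
    c * Real.log N < M.errors (digit b x) N

theorem meas : ∃ c : ℝ, 0 < c ∧ ∀ q : ℕ, 1 ≤ q → ∀ p : ℕ → ℤ,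
    ∃ j ∈ T, c ≤ (q : ℝ) ^ ((1628 : ℝ) - 1) * |(q : ℝ) * zeta j - p j| := by
  obtain ⟨c, hc, hmeas⟩ := Pool.Agent.TH900.XM.measure
  refine ⟨c, hc, fun q hq p => ?_⟩
  obtain ⟨j, hj, h1⟩ := hmeas p q hq
  refine ⟨j, hj, ?_⟩
  have hq0 : (0 : ℝ) < q := by exact_mod_cast hq
  have e1 : (q : ℝ) ^ ((1628 : ℝ) - 1) = (q : ℝ) ^ 1627 := by
    rw [← Real.rpow_natCast]
    norm_num
  have e2 : |(q : ℝ) * zeta j - p j| = q * |zeta j - (p j : ℝ) / q| := by
    rw [← abs_of_pos hq0, ← abs_mul, abs_of_pos hq0]
    congr 1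
    field_simp
  have h2 : c / (q : ℝ) ^ 1628 ≤ |zeta j - (p j : ℝ) / q| := h1
  rw [div_le_iff₀ (by positivity)] at h2
  rw [e1, e2]
  calc c ≤ |zeta j - (p j : ℝ) / q| * (q : ℝ) ^ 1628 := h2
    _ = (q : ℝ) ^ 1627 * (q * |zeta j - (p j : ℝ) / q|) := by ring

theorem log_num : 9 * Real.log ((9 : ℝ) * 1628) < 87 := by
  have h1 := Real.exp_one_gt_d9
  have h2 : ((9 : ℝ) * 1628) ^ 5 < Real.exp 1 ^ 48 := by
    calc ((9 : ℝ) * 1628) ^ 5 < 2.7182818283 ^ 48 := by norm_num
      _ ≤ _ := pow_le_pow_left₀ (by norm_num) h1.le _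
  have h3 := Real.log_lt_log (by positivity) h2
  rw [Real.log_pow, Real.log_pow, Real.log_exp] at h3
  push_cast at h3
  linarith

/-- **Predicting the digits of `ζ(11), …, ζ(27)`.** -/
theorem result :
    -- (1) nine predictors in nine bases
    (∃ C : ℝ, ∀ (b : ℕ → ℕ) (M : ℕ → Predictor) (N : ℕ → ℕ), (∀ j ∈ T, 2 ≤ b j) →
      ∃ j ∈ T, N j * Real.log (b j) ≤
        (∑ i ∈ range (∑ j ∈ T, (M j).errors (digit (b j) (zeta j)) (N j) + 1), (14652 : ℝ) ^ i) *
          (1628 * ∑ j ∈ T, (((M j).Q : ℝ) + 1) * Real.log (b j) + C)) ∧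
    -- (2) one base, predictors with at most `Q` states
    (∃ C : ℝ, ∀ (b Q N : ℕ) (M : ℕ → Predictor), 2 ≤ b → (∀ j ∈ T, (M j).Q ≤ Q) →
      (N : ℝ) ≤ (∑ i ∈ range (∑ j ∈ T, (M j).errors (digit b (zeta j)) N + 1), (14652 : ℝ) ^ i) *
          (14652 * ((Q : ℝ) + 1) + C)) ∧
    -- (3) one of the numbers is hard for all predictors in all bases
    (∀ θ : ℝ, 0 ≤ θ → θ < 1 → ∃ j ∈ T, Hard θ ((1 - θ) / 87) (zeta j)) := by
  obtain ⟨c, hc, hM⟩ := meas
  have hcard : (T.card : ℝ) = 9 := by
    have h1 : T.card = 9 := by decide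
    rw [h1]
    norm_num
  have part1 : ∀ (b : ℕ → ℕ) (M : ℕ → Predictor) (N : ℕ → ℕ), (∀ j ∈ T, 2 ≤ b j) →
      ∃ j ∈ T, N j * Real.log (b j) ≤
        (∑ i ∈ range (∑ j ∈ T, (M j).errors (digit (b j) (zeta j)) (N j) + 1), (14652 : ℝ) ^ i) *
          (1628 * ∑ j ∈ T, (((M j).Q : ℝ) + 1) * Real.log (b j) +
            (Real.log 2 + |Real.log c|)) := by
    intro b M N hb
    have h := Pool.Agent.R473.FV.fam_sep T zeta 1628 c (by norm_num) hc hM b hb
      (fun j => (M j).Q) (fun j => (M j).δ) (fun j => (M j).q₀) (fun j => (M j).out) N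
    have e : (T.card : ℝ) * 1628 = 14652 := by
      rw [hcard]
      norm_num
    rw [e] at h
    exact h
  have hl2 : 0 < Real.log 2 := Real.log_pos one_lt_two
  refine ⟨⟨_, part1⟩, ⟨(Real.log 2 + |Real.log c|) / Real.log 2, ?_⟩, ?_⟩
  · intro b Q N M hb hQ
    obtain ⟨j, hj, h⟩ := part1 (fun _ => b) M (fun _ => N) (fun _ _ => hb)
    have hlb : Real.log 2 ≤ Real.log b := Real.log_le_log (by norm_num) (by exact_mod_cast hb)
    have hlb0 : 0 < Real.log b := by linarith
    have h1 : ∑ j ∈ T, (((M j).Q : ℝ) + 1) * Real.log b ≤ 9 * (((Q : ℝ) + 1) * Real.log b) := by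
      calc ∑ j ∈ T, (((M j).Q : ℝ) + 1) * Real.log b ≤ ∑ _j ∈ T, ((Q : ℝ) + 1) * Real.log b := by
            refine Finset.sum_le_sum fun j hj => mul_le_mul_of_nonneg_right ?_ hlb0.le
            have : ((M j).Q : ℝ) ≤ Q := by exact_mod_cast hQ j hj
            linarith
        _ = 9 * (((Q : ℝ) + 1) * Real.log b) := by
            rw [Finset.sum_const, nsmul_eq_mul, hcard]
    have h2 : Real.log 2 + |Real.log c| ≤ (Real.log 2 + |Real.log c|) / Real.log 2 * Real.log b := by
      rw [div_mul_eq_mul_div, le_div_iff₀ hl2]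
      exact mul_le_mul_of_nonneg_left hlb (by positivity)
    have h3 : (N : ℝ) * Real.log b ≤
        ((∑ i ∈ range (∑ j ∈ T, (M j).errors (digit b (zeta j)) N + 1), (14652 : ℝ) ^ i) *
          (14652 * ((Q : ℝ) + 1) + (Real.log 2 + |Real.log c|) / Real.log 2)) * Real.log b := by
      refine h.trans ?_
      rw [mul_assoc]
      refine mul_le_mul_of_nonneg_left ?_ (Finset.sum_nonneg fun i _ => by positivity)
      linarith
    exact le_of_mul_le_mul_right h3 hlb0
  · intro θ h0 h1
    obtain ⟨j, hj, h⟩ := Pool.Agent.R473.FV.fam_hard T zeta 1628 c (by norm_num) hc hM θ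
      ((1 - θ) / 87) h0 (by
        have : 0 < 1 - θ := by linarith
        positivity) (by
        have h2 : 0 < 1 - θ := by linarith
        rw [hcard, div_mul_eq_mul_div, div_lt_iff₀ (by norm_num)]
        exact mul_lt_mul_of_pos_left log_num h2)
    exact ⟨j, hj, fun b hb N₀ => by
      obtain ⟨N, hN, h4⟩ := h b hb N₀
      exact ⟨N, hN, fun M hQ => h4 M.Q M.δ M.q₀ M.out hQ⟩⟩

end Pool.Agent.Results.MP_4f096c_nt.FiniteStatePredictors
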