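import Mathlib
import Pool.Agent.K3h2.LZ.Main
import Pool.Agent.TH900.XM.Meas

set_option autoImplicit false

/-!
# The expansions of `ζ(11), …, ζ(27)` are not compressible, also after changes of some letters

A word of letters is cut into `z` phrases (`LZ s L z`, Lempel and Ziv) if each phrase is a single
letter, or a (possibly empty) copy of a block that begins further to the left; the block may
overlap the phrase. The starting result `LempelZivExpansions` shows that the nine numbers
`ζ(11), …, ζ(27)` cannot all have expansions with few phrases. One changed letter can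
destroy a parsing completely, since it is not copied with the changed value; so a word which arises from
a word with few phrases by changing a few letters may have many phrases. Here it is shown that
the nine numbers do not even have expansions which are words with few phrases up to few changes:
`Cut H a L z k` says that the first `L` letters of the word `a` can be cut into `z` phrases after at most
`k` of them have been replaced by other integers of absolute value at most `H`; `JointCut` is the same
for several words, with a common parsing and common places.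

For all bases and all representations by integers of absolute value at most `b ^ h`:

1. in one base with a common parsing and `k` common places of changes: `L ≤ C 3256 ^ (z + k)`;
2. each number in its own base `b j`, with a parsing and changes of its own: if the prefixes have at
   least the real length `Λ` then `Λ ≤ C (∑ log (b j)) 29304 ^ (∑ (z j + k j))`, `29304 = 18 · 1628`;
   without changes this holds with `14652 = 9 · 1628` in place of `29304`;
3. for all large `L`, uniformly in the base, one of the nine numbers has `z + k ≥ (log L) / 93` for all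
   parsings of its first `L` letters into `z` phrases after `k` changes.

The proof: between two scales `t` and `29304 t + A` without ends of phrases and without changes the
changed expansions are periodic. The changes before `t` shift the numbers by rational numbers with
denominator `b ^ m`, `m log b ≤ t`, so that the periodic part and the shift together have a
denominator at most `exp (2 t)`; the product of these denominators contradicts the measure of
the starting result `MeasureZeta11To27`.
-/

namespace Pool.Agent.Results.MP_4f096c_nt.LempelZivWithChanges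

open Finset Pool.Agent.R343.LP Pool.Agent.R343.LD Pool.Agent.K3h2.LZ
open Pool.Agent.W47.JL (Meas)

/-- the nine numbers `ζ(11), ζ(13), …, ζ(27)`, `ζ(i) = ∑ 1/(n+1)^i` -/
noncomputable def x (j : Fin 9) : ℝ := ∑' n : ℕ, 1 / ((n : ℝ) + 1) ^ (11 + 2 * (j : ℕ))

/-- `a` is an expansion of `y` modulo `1` in base `b` with integers of absolute value at most
`b ^ h` as digits -/
def Expansion (h b : ℕ) (a : ℕ → ℤ) (y : ℝ) : Prop :=
  (∀ i, |a i| ≤ ((b ^ h : ℕ) : ℤ)) ∧
    ∃ n : ℤ, HasSum (fun i : ℕ => (a i : ℝ) / (b : ℝ) ^ (i + 1)) (y - n)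

/-- the first `L` letters of `a` are cut into `z` phrases after at most `k` of them have been
replaced by other integers of absolute value at most `H` -/
def Cut (H : ℕ) (a : ℕ → ℤ) (L z k : ℕ) : Prop :=
  ∃ s : ℕ → ℤ, (∀ i, |s i| ≤ (H : ℤ)) ∧ ((range L).filter fun i => s i ≠ a i).card ≤ k ∧ LZ s L z

/-- the first `L` letters of all the words `a j` are cut into `z` phrases in the same way, after
changes in at most `k` places -/
def JointCut {J : ℕ} (H : ℕ) (a : Fin J → ℕ → ℤ) (L z k : ℕ) : Prop :=
  ∃ s : Fin J → ℕ → ℤ, (∀ j i, |s j i| ≤ (H : ℤ)) ∧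
    ((range L).filter fun i => ∃ j, s j i ≠ a j i).card ≤ k ∧ LZ (fun i => fun j => s j i) L z

theorem meas : ∃ c : ℝ, 0 < c ∧ Meas 9 x 1628 c 0 := by
  obtain ⟨c, hc, hmeas⟩ := Pool.Agent.TH900.XM.measure
  refine ⟨c, hc, fun q hq p => ?_⟩
  obtain ⟨a, ha⟩ : ∃ a : ℕ → ℤ, ∀ j : Fin 9, a (11 + 2 * (j : ℕ)) = p j :=
    ⟨fun i => if h : (i - 11) / 2 < 9 then p ⟨(i - 11) / 2, h⟩ else 0, fun j => by
      have h1 : (11 + 2 * (j : ℕ) - 11) / 2 = j := by omega
      have h2 : (11 + 2 * (j : ℕ) - 11) / 2 < 9 := by omega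
      simp only [dif_pos h2]
      congr 1
      exact Fin.ext h1⟩
  obtain ⟨i, hi, h1⟩ := hmeas a q hq
  obtain ⟨j, hj⟩ : ∃ j : Fin 9, i = 11 + 2 * (j : ℕ) := by
    simp only [Finset.mem_insert, Finset.mem_singleton] at hi
    refine ⟨⟨(i - 11) / 2, by omega⟩, ?_⟩
    simp only
    omega
  subst hj
  refine ⟨j, ?_⟩
  have hq0 : (0 : ℝ) < q := by exact_mod_cast hq
  rw [ha] at h1
  have h2 : c / (q : ℝ) ^ 1628 ≤ |x j - (p j : ℝ) / q| := h1
  have e1 : (q : ℝ) ^ ((1628 : ℝ) - 1) = (q : ℝ) ^ 1627 := by
    rw [← Real.rpow_natCast]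
    norm_num
  have e2 : |(q : ℝ) * x j - p j| = q * |x j - (p j : ℝ) / q| := by
    rw [← abs_of_pos hq0, ← abs_mul, abs_of_pos hq0]
    congr 1
    field_simp
  rw [div_le_iff₀ (by positivity)] at h2
  rw [e1, e2, Real.rpow_zero, mul_one]
  calc c ≤ |x j - (p j : ℝ) / q| * (q : ℝ) ^ 1628 := h2
    _ = (q : ℝ) ^ 1627 * (q * |x j - (p j : ℝ) / q|) := by ring

theorem log_num : 9 * Real.log 29304 < 93 := by
  have h1 := Real.exp_one_gt_d9
  have h2 : (29304 : ℝ) ^ 3 < Real.exp 1 ^ 31 := by
    calc (29304 : ℝ) ^ 3 < 2.7182818283 ^ 31 := by norm_num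
      _ ≤ _ := pow_le_pow_left₀ (by norm_num) h1.le _
  have h3 := Real.log_lt_log (by positivity) h2
  rw [Real.log_pow, Real.log_pow, Real.log_exp] at h3
  push_cast at h3
  linarith

/-- **The expansions of `ζ(11), …, ζ(27)`, with changed letters.** (1) One base, one parsing; (2) each
number in its own base; (3) at each large scale one of the numbers has many phrases or needs
many changes. -/
theorem result : ∀ h : ℕ, ∃ C : ℝ, 0 < C ∧
    (∀ b : ℕ, 2 ≤ b → ∀ a : Fin 9 → ℕ → ℤ, (∀ j, Expansion h b (a j) (x j)) →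
      ∀ L z k : ℕ, JointCut (b ^ h) a L z k → (L : ℝ) ≤ C * 3256 ^ (z + k)) ∧
    (∀ b : Fin 9 → ℕ, (∀ j, 2 ≤ b j) → ∀ a : Fin 9 → ℕ → ℤ,
      (∀ j, Expansion h (b j) (a j) (x j)) → ∀ L z k : Fin 9 → ℕ,
      (∀ j, Cut (b j ^ h) (a j) (L j) (z j) (k j)) → ∀ Λ : ℝ,
      (∀ j, Λ ≤ L j * Real.log (b j)) →
        Λ ≤ C * (∑ j, Real.log (b j)) * 29304 ^ (∑ j, (z j + k j)) ∧
        ((∀ j, k j = 0) → Λ ≤ C * (∑ j, Real.log (b j)) * 14652 ^ (∑ j, z j))) ∧
    ∃ L₀ : ℕ, ∀ b : ℕ, 2 ≤ b → ∀ a : Fin 9 → ℕ → ℤ, (∀ j, Expansion h b (a j) (x j)) →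
      ∀ L : ℕ, L₀ ≤ L → ∃ j, ∀ z k : ℕ, Cut (b ^ h) (a j) L z k →
        Real.log L / 93 ≤ z + k := by
  classical
  intro h
  obtain ⟨c, hc, hM⟩ := meas
  obtain ⟨C2, hC2, h2⟩ := jointE 9 1628 c (by norm_num) hc 2 (Or.inr rfl) (by norm_num) h
  obtain ⟨C3, hC3, h3⟩ := sepE 9 1628 c (by norm_num) hc 1 (Or.inl rfl) (by norm_num) h
  obtain ⟨C4, hC4, h4⟩ := sepE 9 1628 c (by norm_num) hc 2 (Or.inr rfl) (by norm_num) h
  have e1 : ((2 : ℕ) : ℝ) * 1628 = 3256 := by norm_num
  have e2 : ((2 : ℕ) : ℝ) * ((9 : ℕ) : ℝ) * 1628 = 29304 := by norm_num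
  have e3 : ((1 : ℕ) : ℝ) * ((9 : ℕ) : ℝ) * 1628 = 14652 := by norm_num
  obtain ⟨L₀, h5⟩ := largeE 9 1628 c (by norm_num) hc 2 (Or.inr rfl) (by norm_num) h 93 (by
    rw [e2]
    have := log_num
    push_cast
    linarith)
  obtain ⟨C, hC⟩ : ∃ C : ℝ, C = C2 + C3 + C4 := ⟨_, rfl⟩
  refine ⟨C, by rw [hC]; positivity, ?_, ?_, L₀, ?_⟩
  · intro b hb a ha L z k ⟨s, hs, hcard, hLZ⟩
    have h6 := h2 x hM b hb a s (fun j => (ha j).1) hs (fun j => (ha j).2) L z
      ((range L).filter fun i => ∃ j, s j i ≠ a j i) (fun j i hi hn => by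
        by_contra hne
        exact hn (Finset.mem_filter.2 ⟨Finset.mem_range.2 hi, j, hne⟩)) (fun h => by omega) hLZ
    rw [e1] at h6
    refine h6.trans ?_
    have h7 : (3256 : ℝ) ^ (z + ((range L).filter fun i => ∃ j, s j i ≠ a j i).card) ≤
        3256 ^ (z + k) := pow_le_pow_right₀ (by norm_num) (by omega)
    exact mul_le_mul (by rw [hC]; linarith) h7 (by positivity) (by rw [hC]; positivity)
  · intro b hb a ha L z k hcut Λ hΛ
    choose s hs hcard hLZ using hcut
    have hB : 0 ≤ ∑ j, Real.log (b j) := Finset.sum_nonneg fun j _ => Real.log_natCast_nonneg _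
    refine ⟨?_, fun hk => ?_⟩
    · have h6 := h4 x hM b hb a s (fun j => (ha j).1) hs (fun j => (ha j).2) L z
        (fun j => (range (L j)).filter fun i => s j i ≠ a j i) (fun j i hi hn => by
          by_contra hne
          exact hn (Finset.mem_filter.2 ⟨Finset.mem_range.2 hi, hne⟩)) (fun h => by omega) hLZ Λ hΛ
      rw [e2] at h6
      refine h6.trans ?_
      have h7 : (29304 : ℝ) ^ (∑ j, (z j + ((range (L j)).filter fun i => s j i ≠ a j i).card)) ≤
          29304 ^ (∑ j, (z j + k j)) := by
        refine pow_le_pow_right₀ (by norm_num) (Finset.sum_le_sum fun j _ => ?_)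
        have := hcard j
        omega
      refine mul_le_mul (mul_le_mul_of_nonneg_right (by rw [hC]; linarith) hB) h7 (by positivity)
        (by rw [hC]; positivity)
    · have h7 : ∀ j, ((range (L j)).filter fun i => s j i ≠ a j i) = ∅ := by
        intro j
        rw [← Finset.card_eq_zero]
        have := hcard j
        have := hk j
        omega
      have h6 := h3 x hM b hb a s (fun j => (ha j).1) hs (fun j => (ha j).2) L z
        (fun _ => ∅) (fun j i hi _ => by
          by_contra hne
          have h8 : i ∈ ((range (L j)).filter fun i => s j i ≠ a j i) :=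
            Finset.mem_filter.2 ⟨Finset.mem_range.2 hi, hne⟩
          rw [h7 j] at h8
          exact absurd h8 (Finset.notMem_empty _)) (fun _ _ => rfl) hLZ Λ hΛ
      rw [e3] at h6
      simp only [Finset.card_empty, add_zero] at h6
      refine h6.trans ?_
      refine mul_le_mul_of_nonneg_right (mul_le_mul_of_nonneg_right (by rw [hC]; linarith) hB) ?_
      positivity
  · intro b hb a ha L hL
    obtain ⟨j, hj⟩ := h5 x hM b hb a (fun j => (ha j).1) (fun j => (ha j).2) L hL
    refine ⟨j, ?_⟩
    rintro z k ⟨s, hs, hcard, hz⟩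
    have h6 := hj s hs z _ (fun i hi hn => by
      by_contra hne
      exact hn (Finset.mem_filter.2 ⟨Finset.mem_range.2 hi, hne⟩)) (fun h => by omega) hz
    have h7 : (((range L).filter fun i => s i ≠ a j i).card : ℝ) ≤ k := by exact_mod_cast hcard
    rw [div_le_iff₀ (by norm_num)]
    linarith

end Pool.Agent.Results.MP_4f096c_nt.LempelZivWithChanges
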