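import Pool.Agent.K3h65.ZM.Final
import Pool.Agent.TH900.XM.Meas

/-!
# The prime multiples of `ζ(11), …, ζ(27)` modulo one

By the starting files one of the nine numbers `ζ(11), ζ(13), …, ζ(27)` is irrational. Here it is proved that for every
large `N` one of the nine numbers, `x_N` say, is such that the multiples `p x_N`, `p ≤ N` prime, are uniformly distributed
modulo one with a power saving: for all intervals `[u, v)` of `[0, 1]` the sum of `log p` over the primes `p ≤ N` with the
fractional part of `p x_N` in `[u, v)` is `(v - u) ∑_{p ≤ N} log p`, up to `N ^ (1 - 1 / 270000)`; the same for the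
multiples `h p x_N`, `1 ≤ h ≤ N ^ (1 / 120000)`. For the same number `x_N` the values `P(n)`, `n ≤ N`, of all real
polynomials of degree `k` with leading coefficient `h x_N`, `1 ≤ h ≤ N ^ δ`, have discrepancy at most `N ^ (-δ)`,
`δ = δ(k) > 0`. One and the same of the nine numbers is equal to `x_N` for a set of `N` of upper density at
least `1 / 9`. For a rational number all this is false for large `N`.

Proof. The starting result `MeasureZeta11To27` (no nine rational numbers with the common denominator `q` are closer to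
the nine numbers than `c q ^ (-1628)`), applied to the product of nine denominators, shows that for every `K` one of
the nine numbers has no multiple `k x`, `k ≤ K`, at distance less than `c K ^ (-14652)` from an integer. For
`K = N ^ (1 / 30000)` all the frequencies which matter are then in the minor arcs of Vinogradov's estimate for the
exponential sum over the primes up to `N`, and of Weyl's inequality.
-/

set_option autoImplicit false

namespace Pool.Agent.Results.MP_4f096c_nt.PrimeMultiplesModuloOne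

open Finset Polynomial

/-- `ζ(j) = ∑ 1 / (n + 1) ^ j` -/
noncomputable def zeta (j : ℕ) : ℝ := ∑' n : ℕ, 1 / ((n : ℝ) + 1) ^ j

open Classical in
/-- **Prime multiples and polynomials.** There is a function `J` with values in `{11, 13, …, 27}` such that for the numbers
`x_N = ζ(J N)`: (1) for all large `N`, `1 ≤ h ≤ N ^ (1 / 120000)` and `[u, v) ⊆ [0, 1)` the sum of `log p` over the primes
`p ≤ N` with the fractional part of `h p x_N` in `[u, v)` differs from `(v - u) ∑_{p ≤ N} log p` by at most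
`N ^ (1 - 1 / 270000)`; (2) for every `k ≥ 1` there is `δ > 0` such that for all large `N`, `1 ≤ h ≤ N ^ δ` and all real
polynomials `P` of degree `k` with leading coefficient `h x_N` the number of the `n ≤ N` with the fractional part of
`P n` in `[u, v)` differs from `(v - u) N` by at most `N ^ (1 - δ)`; (3) some `j` is equal to `J N` for a set of `N` of
upper density at least `1 / 9`. -/
theorem result : ∃ J : ℕ → ℕ, (∀ N, Odd (J N) ∧ 11 ≤ J N ∧ J N ≤ 27) ∧
    (∃ N₀ : ℕ, ∀ N : ℕ, N₀ ≤ N → ∀ h : ℕ, 1 ≤ h → (h : ℝ) ≤ (N : ℝ) ^ ((1 : ℝ) / 120000) →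
      ∀ u v : ℝ, 0 ≤ u → u ≤ v → v ≤ 1 →
        |∑ p ∈ Icc 1 N, (if p.Prime ∧ u ≤ Int.fract ((h : ℝ) * p * zeta (J N)) ∧
            Int.fract ((h : ℝ) * p * zeta (J N)) < v then Real.log p else 0) -
          (v - u) * ∑ p ∈ Icc 1 N, (if p.Prime then Real.log p else 0)| ≤ (N : ℝ) ^ (1 - (1 : ℝ) / 270000)) ∧
    (∀ k : ℕ, 1 ≤ k → ∃ δ : ℝ, 0 < δ ∧ ∃ N₀ : ℕ, ∀ N : ℕ, N₀ ≤ N → ∀ h : ℕ, 1 ≤ h → (h : ℝ) ≤ (N : ℝ) ^ δ →
      ∀ P : ℝ[X], P.natDegree ≤ k → P.coeff k = h * zeta (J N) → ∀ u v : ℝ, 0 ≤ u → u ≤ v → v ≤ 1 →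
        |(((Icc 1 N).filter (fun n : ℕ => u ≤ Int.fract (P.eval (n : ℝ)) ∧ Int.fract (P.eval (n : ℝ)) < v)).card : ℝ) -
          (v - u) * N| ≤ (N : ℝ) ^ (1 - δ)) ∧
    ∃ j : ℕ, ∀ X₀ : ℕ, ∃ X : ℕ, X₀ ≤ X ∧ X ≤ 9 * ((Icc 1 X).filter (fun N => J N = j)).card := by
  obtain ⟨c, hc, hm⟩ := Pool.Agent.TH900.XM.measure
  obtain ⟨J, hJ, N₁, hbad⟩ := Pool.Agent.K3h65.ZM.choice zeta c hc (fun a q hq => by
    obtain ⟨j, hj, h⟩ := hm a q hq
    exact ⟨j, hj, h⟩)
  refine ⟨J, fun N => Pool.Agent.K3h65.ZM.mem_J9 (hJ N), ?_, fun k hk => ?_, ?_⟩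
  · obtain ⟨N₀, h0⟩ := Pool.Agent.K3h65.ZM.prime_disc (1 / 30000) (by norm_num) (by norm_num)
    refine ⟨max N₀ N₁, fun N hN h hh hhN u v hu huv hv => ?_⟩
    have h1 := h0 N ((le_max_left _ _).trans hN) _ (hbad N ((le_max_right _ _).trans hN)) h hh
      (hhN.trans (le_of_eq (by norm_num))) u v hu huv hv
    refine h1.trans (le_of_eq ?_)
    norm_num
  · obtain ⟨δ, hδ, N₀, h0⟩ := Pool.Agent.K3h65.ZM.poly_disc (1 / 30000) (by norm_num) k hk
    refine ⟨δ, hδ, max N₀ N₁, fun N hN h hh hhN P hP hPk u v hu huv hv => ?_⟩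
    have h1 := h0 N ((le_max_left _ _).trans hN) _ (hbad N ((le_max_right _ _).trans hN)) h hh hhN P hP hPk u v hu huv hv
    rw [card_filter]
    push_cast
    exact h1
  · obtain ⟨j, -, h⟩ := Pool.Agent.K3h65.ZM.pigeon J hJ
    refine ⟨j, fun X₀ => ?_⟩
    obtain ⟨X, h1, h2⟩ := h X₀
    exact ⟨X, h1, h2⟩

end Pool.Agent.Results.MP_4f096c_nt.PrimeMultiplesModuloOne
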